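import Pool.Agent.N993.RK.Stm

/-!
# The 2-transitive action on the isotropic points (project RK of helper993)

Author: helper291.
-/

set_option autoImplicit false

namespace Pool.Agent.N291.RK.ACT

open Matrix Pool.Agent.N993.RK

lemma five0 : (5 : Om) = 0 := by
  have := CharP.cast_eq_zero Om 5
  exact_mod_cast this

/-- the Gram matrix of the basis `w, w', e₂` -/
noncomputable def J : M3 Om := !![0, 1, 0; 1, 0, 0; 0, 0, 1]

lemma C_mul_Ci : C Om * Ci Om = 1 := by
  ext i j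
  fin_cases i <;> fin_cases j <;> simp [C, Ci, Matrix.mul_apply, Fin.sum_univ_three] <;>
    first
      | linear_combination (0 : Om) * five0
      | linear_combination (1 : Om) * five0
      | linear_combination (2 : Om) * five0
      | linear_combination (3 : Om) * five0

lemma Ci_mul_C : Ci Om * C Om = 1 := _root_.mul_eq_one_comm.1 C_mul_Ci

lemma CtC : (C Om)ᵀ * C Om = J := by
  ext i j
  fin_cases i <;> fin_cases j <;> simp [C, J, Matrix.mul_apply, Fin.sum_univ_three] <;>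
    first
      | linear_combination (0 : Om) * five0
      | linear_combination (1 : Om) * five0
      | linear_combination (2 : Om) * five0
      | linear_combination (3 : Om) * five0
      | linear_combination (4 : Om) * five0
      | linear_combination (5 : Om) * five0

lemma CiJ : (Ci Om)ᵀ * J * Ci Om = 1 := by
  have h1 : (Ci Om)ᵀ * J * Ci Om = (Ci Om)ᵀ * (C Om)ᵀ * (C Om * Ci Om) := by
    rw [← CtC]
    simp only [Matrix.mul_assoc]
  rw [h1, C_mul_Ci, Matrix.mul_one, ← Matrix.transpose_mul, C_mul_Ci, Matrix.transpose_one]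

lemma C_map (n : ℕ) : (C Om).map (iterateFrobenius Om 5 n) = C Om := by
  ext i j
  fin_cases i <;> fin_cases j <;> simp [C] <;> exact map_ofNat (iterateFrobenius Om 5 n) _

lemma Ci_map (n : ℕ) : (Ci Om).map (iterateFrobenius Om 5 n) = Ci Om := by
  ext i j
  fin_cases i <;> fin_cases j <;> simp [Ci] <;> exact map_ofNat (iterateFrobenius Om 5 n) _

/-- the matrix in the basis `w, w', e₂` -/
noncomputable def G (g : SL Om) : M3 Om := Ci Om * mt g * C Om

lemma G_mul (g h : SL Om) : G (g * h) = G g * G h := by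
  unfold G
  rw [mt_mul]
  calc Ci Om * (mt g * mt h) * C Om = Ci Om * mt g * 1 * (mt h * C Om) := by
        simp only [Matrix.mul_assoc, Matrix.one_mul]
    _ = Ci Om * mt g * (C Om * Ci Om) * (mt h * C Om) := by rw [C_mul_Ci]
    _ = _ := by simp only [Matrix.mul_assoc]

lemma G_one : G 1 = 1 := by
  unfold G
  rw [mt_one, Matrix.mul_one, Ci_mul_C]

lemma G_inv_mul (g : SL Om) : G g⁻¹ * G g = 1 := by
  rw [← G_mul, inv_mul_cancel, G_one]

lemma G_mul_inv (g : SL Om) : G g * G g⁻¹ = 1 := by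
  rw [← G_mul, mul_inv_cancel, G_one]

lemma mt_of_G (g : SL Om) : mt g = C Om * G g * Ci Om := by
  unfold G
  calc mt g = 1 * mt g * 1 := by rw [Matrix.one_mul, Matrix.mul_one]
    _ = (C Om * Ci Om) * mt g * (C Om * Ci Om) := by rw [C_mul_Ci]
    _ = _ := by simp only [Matrix.mul_assoc]

lemma G_of_mt (g : SL Om) (A : M3 Om) (h : mt g = C Om * A * Ci Om) : G g = A := by
  unfold G
  rw [h]
  calc Ci Om * (C Om * A * Ci Om) * C Om = (Ci Om * C Om) * A * (Ci Om * C Om) := by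
        simp only [Matrix.mul_assoc]
    _ = A := by rw [Ci_mul_C, Matrix.one_mul, Matrix.mul_one]

lemma G_inj {g h : SL Om} (e : G g = G h) : g = h := by
  apply mt_inj
  rw [mt_of_G g, mt_of_G h, e]

lemma G_det (g : SL Om) : (G g).det = 1 := by
  unfold G
  rw [Matrix.det_mul, Matrix.det_mul]
  have h1 : (mt g).det = 1 := g.2
  rw [h1, mul_one, ← Matrix.det_mul, Ci_mul_C, Matrix.det_one]

lemma G_unit (n : ℕ) {g : SL Om} (hg : g ∈ SU Om n) : ct n (G g) * J * G g = J := by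
  have h1 : mt g * ct n (mt g) = 1 := hg
  have h2 : ct n (mt g) * mt g = 1 := _root_.mul_eq_one_comm.1 h1
  have hC : ct n (C Om) = (C Om)ᵀ := by
    unfold ct
    rw [C_map]
  have hCi : ct n (Ci Om) = (Ci Om)ᵀ := by
    unfold ct
    rw [Ci_map]
  unfold G
  rw [ct_mul, ct_mul, hC, hCi]
  calc (C Om)ᵀ * (ct n (mt g) * (Ci Om)ᵀ) * J * (Ci Om * mt g * C Om) =
        (C Om)ᵀ * (ct n (mt g) * ((Ci Om)ᵀ * J * Ci Om) * mt g) * C Om := by
        simp only [Matrix.mul_assoc]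
    _ = J := by rw [CiJ, Matrix.mul_one, h2, Matrix.mul_one, CtC]

lemma G_unit_apply (n : ℕ) {g : SL Om} (hg : g ∈ SU Om n) (j k : Fin 3) :
    G g 0 j ^ (5 ^ n) * G g 1 k + G g 1 j ^ (5 ^ n) * G g 0 k + G g 2 j ^ (5 ^ n) * G g 2 k =
      J j k := by
  have h := congrFun (congrFun (G_unit n hg) j) k
  rw [← h]
  simp only [Matrix.mul_apply, Fin.sum_univ_three, ct_apply]
  simp [J]
  ring

lemma G_fix (n : ℕ) {g : SL Om} (hg : ∀ i j, mt g i j ^ (5 ^ n) = mt g i j) (i j : Fin 3) :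
    G g i j ^ (5 ^ n) = G g i j := by
  have h1 : (mt g).map (iterateFrobenius Om 5 n) = mt g := by
    ext i j
    rw [Matrix.map_apply, iterateFrobenius_def, hg]
  have h2 : (G g).map (iterateFrobenius Om 5 n) = G g := by
    unfold G
    rw [Matrix.map_mul, Matrix.map_mul, h1, C_map, Ci_map]
  have h3 := congrFun (congrFun h2 i) j
  rw [Matrix.map_apply, iterateFrobenius_def] at h3
  exact h3

/-- the vector `w` in the basis `w, w', e₂` -/
noncomputable def e0 : Fin 3 → Om := ![1, 0, 0]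

lemma e0_ne : e0 ≠ 0 := by
  intro h
  have := congrFun h 0
  simp [e0] at this

lemma mulVec_e0 (A : M3 Om) : A *ᵥ e0 = fun i => A i 0 := by
  funext i
  simp [e0, Matrix.mulVec, dotProduct, Fin.sum_univ_three]

section group

variable (S : Subgroup (SL Om))

/-- the stabiliser of the line of `w` -/
def Bo : Subgroup S where
  carrier := {g | ∃ α : Om, G g.1 *ᵥ e0 = α • e0}
  one_mem' := ⟨1, by
    show G 1 *ᵥ e0 = _
    rw [G_one, Matrix.one_mulVec, one_smul]⟩
  mul_mem' := by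
    rintro a b ⟨α, ha⟩ ⟨β, hb⟩
    refine ⟨β * α, ?_⟩
    show G (a.1 * b.1) *ᵥ e0 = _
    rw [G_mul, ← Matrix.mulVec_mulVec, hb, Matrix.mulVec_smul, ha, smul_smul]
  inv_mem' := by
    rintro a ⟨α, ha⟩
    have h1 : α • (G (a.1)⁻¹ *ᵥ e0) = e0 := by
      rw [← Matrix.mulVec_smul, ← ha, Matrix.mulVec_mulVec, G_inv_mul, Matrix.one_mulVec]
    have h2 : α ≠ 0 := by
      intro h0
      rw [h0, zero_smul] at h1
      exact e0_ne h1.symm
    refine ⟨α⁻¹, ?_⟩
    show G (a.1)⁻¹ *ᵥ e0 = _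
    conv_rhs => rw [← h1]
    rw [smul_smul, inv_mul_cancel₀ h2, one_smul]

/-- the stabiliser of `w` -/
def Un : Subgroup S where
  carrier := {g | G g.1 *ᵥ e0 = e0}
  one_mem' := by
    show G 1 *ᵥ e0 = _
    rw [G_one, Matrix.one_mulVec]
  mul_mem' := by
    intro a b ha hb
    have ha' : G a.1 *ᵥ e0 = e0 := ha
    have hb' : G b.1 *ᵥ e0 = e0 := hb
    show G (a.1 * b.1) *ᵥ e0 = _
    rw [G_mul, ← Matrix.mulVec_mulVec, hb', ha']
  inv_mem' := by
    intro a ha
    have ha' : G a.1 *ᵥ e0 = e0 := ha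
    show G (a.1)⁻¹ *ᵥ e0 = _
    conv_lhs => rw [← ha']
    rw [Matrix.mulVec_mulVec, G_inv_mul, Matrix.one_mulVec]

variable {S}

lemma mem_Bo {g : S} : g ∈ Bo S ↔ ∃ α : Om, G g.1 *ᵥ e0 = α • e0 := Iff.rfl

lemma mem_Un {g : S} : g ∈ Un S ↔ G g.1 *ᵥ e0 = e0 := Iff.rfl

lemma Un_le : Un S ≤ Bo S := fun _ hg => ⟨1, by rw [one_smul]; exact hg⟩

lemma Un_conj {u h : S} (hu : u ∈ Un S) (hh : h ∈ Bo S) : h * u * h⁻¹ ∈ Un S := by
  obtain ⟨α, hα⟩ := mem_Bo.1 ((Bo S).inv_mem hh)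
  have hα' : G (h.1)⁻¹ *ᵥ e0 = α • e0 := hα
  rw [mem_Un] at hu ⊢
  show G (h.1 * u.1 * (h.1)⁻¹) *ᵥ e0 = e0
  rw [G_mul, G_mul, ← Matrix.mulVec_mulVec, ← Matrix.mulVec_mulVec, hα', Matrix.mulVec_smul, hu,
    ← hα', Matrix.mulVec_mulVec, G_mul_inv, Matrix.one_mulVec]

end group

lemma NU_e0 (n : ℕ) (a b : Om) : NU n a b *ᵥ e0 = e0 := by
  rw [mulVec_e0]
  funext i
  fin_cases i <;> simp [NU, e0]

/-- the elements which fix `w` -/
lemma form_Un (n : ℕ) {g : SL Om} (hg : g ∈ SU Om n)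
    (hF : ∀ i j, mt g i j ^ (5 ^ (2 * n)) = mt g i j) (h0 : G g *ᵥ e0 = e0) :
    ∃ a b : Om, a ^ (5 ^ (2 * n)) = a ∧ b ^ (5 ^ (2 * n)) = b ∧
      b + b ^ (5 ^ n) + a * a ^ (5 ^ n) = 0 ∧ G g = NU n a b := by
  have hp : (5 ^ n : ℕ) ≠ 0 := by positivity
  have h00 : G g 0 0 = 1 := by
    have := congrFun h0 0
    rw [mulVec_e0] at this
    simpa [e0] using this
  have h10 : G g 1 0 = 0 := by
    have := congrFun h0 1
    rw [mulVec_e0] at this
    simpa [e0] using this
  have h20 : G g 2 0 = 0 := by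
    have := congrFun h0 2
    rw [mulVec_e0] at this
    simpa [e0] using this
  have hrow : ∀ k, G g 1 k = J 0 k := by
    intro k
    have := G_unit_apply n hg 0 k
    rw [h00, h10, h20, one_pow, zero_pow hp, zero_mul, zero_mul, one_mul, add_zero,
      add_zero] at this
    exact this
  have h11 : G g 1 1 = 1 := by rw [hrow]; simp [J]
  have h12 : G g 1 2 = 0 := by rw [hrow]; simp [J]
  have hdet := G_det g
  rw [Matrix.det_fin_three, h00, h10, h20, h11, h12] at hdet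
  have h22 : G g 2 2 = 1 := by linear_combination hdet
  have hb := G_unit_apply n hg 1 1
  rw [h11, one_pow] at hb
  have hJ11 : J 1 1 = 0 := by simp [J]
  rw [hJ11] at hb
  have hc := G_unit_apply n hg 1 2
  rw [h11, h12, h22, one_pow] at hc
  have hJ12 : J 1 2 = 0 := by simp [J]
  rw [hJ12] at hc
  refine ⟨G g 2 1, G g 0 1, G_fix _ hF _ _, G_fix _ hF _ _, by linear_combination hb, ?_⟩
  have h02 : G g 0 2 = -(G g 2 1) ^ (5 ^ n) := by linear_combination hc
  ext i j
  fin_cases i <;> fin_cases j <;> simp [NU, h00, h10, h20, h11, h12, h22, h02]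

/-- the solutions of `b + b ^ (5 ^ n) = 0` -/
lemma exists_T (n : ℕ) (hn : 0 < n) :
    ∃ T : Finset Om, T.card = 5 ^ n ∧ ∀ b ∈ T, b + b ^ (5 ^ n) = 0 := by
  classical
  obtain ⟨P, hP⟩ : ∃ P : Polynomial Om, P = Polynomial.X ^ (5 ^ n) + Polynomial.X := ⟨_, rfl⟩
  have h1 : 1 < 5 ^ n := Nat.one_lt_pow hn.ne' (by norm_num)
  have hdeg : P.natDegree = 5 ^ n := by
    rw [hP]
    rw [Polynomial.natDegree_add_eq_left_of_natDegree_lt]
    · exact Polynomial.natDegree_X_pow _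
    · rw [Polynomial.natDegree_X_pow, Polynomial.natDegree_X]
      exact h1
  have hsep : P.Separable := by
    have h2 : Polynomial.derivative P = 1 := by
      rw [hP, Polynomial.derivative_add, Polynomial.derivative_X_pow, Polynomial.derivative_X]
      have h3 : ((5 ^ n : ℕ) : Om) = 0 := by
        push_cast
        rw [five0, zero_pow hn.ne']
      rw [h3, map_zero, zero_mul, zero_add]
    unfold Polynomial.Separable
    rw [h2]
    exact isCoprime_one_right
  refine ⟨P.roots.toFinset, ?_, ?_⟩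
  · rw [Multiset.toFinset_card_of_nodup (Polynomial.nodup_roots hsep),
      IsAlgClosed.card_roots_eq_natDegree, hdeg]
  · intro b hb
    rw [Multiset.mem_toFinset] at hb
    have h2 := Polynomial.isRoot_of_mem_roots hb
    rw [hP] at h2
    simp only [Polynomial.IsRoot.def, Polynomial.eval_add, Polynomial.eval_pow,
      Polynomial.eval_X] at h2
    rw [add_comm]
    exact h2

lemma fin_F (n : ℕ) (hn : 0 < n) : Finite {x : Om // x ^ (5 ^ n) = x} := by
  classical
  obtain ⟨P, hP⟩ : ∃ P : Polynomial Om, P = Polynomial.X ^ (5 ^ n) - Polynomial.X := ⟨_, rfl⟩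
  have h1 : 1 < 5 ^ n := Nat.one_lt_pow hn.ne' (by norm_num)
  have hP0 : P ≠ 0 := by
    intro h0
    have hdeg : P.natDegree = 5 ^ n := by
      rw [hP]
      rw [Polynomial.natDegree_sub_eq_left_of_natDegree_lt]
      · exact Polynomial.natDegree_X_pow _
      · rw [Polynomial.natDegree_X_pow, Polynomial.natDegree_X]
        exact h1
    rw [h0, Polynomial.natDegree_zero] at hdeg
    omega
  have h2 : {x : Om | x ^ (5 ^ n) = x} ⊆ (P.roots.toFinset : Set Om) := by
    intro x hx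
    have hx' : x ^ (5 ^ n) = x := hx
    rw [Finset.mem_coe, Multiset.mem_toFinset, Polynomial.mem_roots hP0, hP]
    simp [Polynomial.IsRoot.def, hx']
  exact ((Finset.finite_toSet _).subset h2).to_subtype

lemma fin_S (n : ℕ) (hn : 0 < n) (S : Subgroup (SL Om))
    (hS : ∀ g ∈ S, ∀ i j, mt g i j ^ (5 ^ n) = mt g i j) : Finite S := by
  have := fin_F n hn
  refine Finite.of_injective
    (fun (g : S) (i j : Fin 3) => (⟨mt g.1 i j, hS g.1 g.2 i j⟩ : {x : Om // x ^ (5 ^ n) = x})) ?_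
  intro g h e
  apply Subtype.ext
  apply mt_inj
  ext i j
  exact congrArg Subtype.val (congrFun (congrFun e i) j)

/-- the matrix of the swap of `w` and `w'` -/
noncomputable def Sw : M3 Om := !![0, 1, 0; 1, 0, 0; 0, 0, -1]

lemma NU_Sw (n : ℕ) (a b : Om) : (NU n a b * Sw) *ᵥ e0 = ![b, 1, a] := by
  rw [mulVec_e0]
  funext i
  fin_cases i <;> simp [NU, Sw, Matrix.mul_apply, Fin.sum_univ_three]

theorem t_ACT : S_ACT := by
  intro n hn S hSU hSF hNU hSw
  obtain ⟨s0, hs0, hs1⟩ := hSw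
  obtain ⟨s, hs⟩ : ∃ s : S, G s.1 = Sw := ⟨⟨s0, hs0⟩, G_of_mt _ _ hs1⟩
  have h2n : 0 < 2 * n := by omega
  have hfin : Finite S := fin_S (2 * n) h2n S hSF
  -- the elements of `U`
  have hform : ∀ u ∈ Un S, ∃ a b : Om, a ^ (5 ^ (2 * n)) = a ∧ b ^ (5 ^ (2 * n)) = b ∧
      b + b ^ (5 ^ n) + a * a ^ (5 ^ n) = 0 ∧ G u.1 = NU n a b := fun u hu =>
    form_Un n (hSU u.2) (hSF u.1 u.2) hu
  have hex : ∀ a b : Om, a ^ (5 ^ (2 * n)) = a → b ^ (5 ^ (2 * n)) = b →
      b + b ^ (5 ^ n) + a * a ^ (5 ^ n) = 0 → ∃ u ∈ Un S, G u.1 = NU n a b := by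
    intro a b ha hb hab
    obtain ⟨g, hg, hg1⟩ := hNU a b ha hb hab
    refine ⟨⟨g, hg⟩, ?_, G_of_mt _ _ hg1⟩
    show G g *ᵥ e0 = e0
    rw [G_of_mt _ _ hg1, NU_e0]
  have hus : ∀ (u : S) (a b : Om), G u.1 = NU n a b → G (u * s : S).1 *ᵥ e0 = ![b, 1, a] := by
    intro u a b hu
    show G (u.1 * s.1) *ᵥ e0 = _
    rw [G_mul, hu, hs, NU_Sw]
  -- uniqueness
  have huniq : ∀ u ∈ Un S, ∀ u' ∈ Un S,
      ((u * s : S) : S ⧸ Bo S) = ((u' * s : S) : S ⧸ Bo S) → u = u' := by
    intro u hu u' hu' h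
    obtain ⟨a, b, -, -, -, hab⟩ := hform u hu
    obtain ⟨a', b', -, -, -, hab'⟩ := hform u' hu'
    rw [QuotientGroup.eq] at h
    obtain ⟨α, hα⟩ := mem_Bo.1 h
    have h1 : G (u' * s : S).1 *ᵥ e0 = α • (G (u * s : S).1 *ᵥ e0) := by
      rw [← Matrix.mulVec_smul, ← hα, Matrix.mulVec_mulVec, ← G_mul]
      congr 2
      show _ = ((u * s : S) * ((u * s)⁻¹ * (u' * s)) : S).1
      rw [mul_inv_cancel_left]
    rw [hus u a b hab, hus u' a' b' hab'] at h1
    have e1 : α = 1 := by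
      have := congrFun h1 1
      simpa using this.symm
    rw [e1, one_smul] at h1
    have e2 : b' = b := by
      have := congrFun h1 0
      simpa using this
    have e3 : a' = a := by
      have := congrFun h1 2
      simpa using this
    apply Subtype.ext
    apply G_inj
    rw [hab, hab', e2, e3]
  have hne : ∀ u ∈ Un S, ((u * s : S) : S ⧸ Bo S) ≠ ((1 : S) : S ⧸ Bo S) := by
    intro u hu h
    obtain ⟨a, b, -, -, -, hab⟩ := hform u hu
    have h' := h.symm
    rw [QuotientGroup.eq, inv_one, one_mul] at h'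
    obtain ⟨α, hα⟩ := mem_Bo.1 h'
    rw [hus u a b hab] at hα
    have := congrFun hα 1
    simp [e0] at this
  -- existence
  have hbr : ∀ y : S ⧸ Bo S, y ≠ ((1 : S) : S ⧸ Bo S) →
      ∃ u ∈ Un S, ((u * s : S) : S ⧸ Bo S) = y := by
    intro y hy
    obtain ⟨g, rfl⟩ := QuotientGroup.mk_surjective y
    have hg : g ∉ Bo S := by
      intro hg
      apply hy
      symm
      rw [QuotientGroup.eq, inv_one, one_mul]
      exact hg
    have hiso := G_unit_apply n (hSU g.2) 0 0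
    have hJ : J 0 0 = 0 := by simp [J]
    rw [hJ] at hiso
    have hfix : ∀ i, G g.1 i 0 ^ (5 ^ (2 * n)) = G g.1 i 0 := fun i => G_fix _ (hSF g.1 g.2) i 0
    have h10 : G g.1 1 0 ≠ 0 := by
      intro h10
      apply hg
      rw [h10, zero_pow (by positivity), mul_zero, zero_mul, zero_add, zero_add, ← pow_succ] at hiso
      have h20 : G g.1 2 0 = 0 := (pow_eq_zero_iff (Nat.succ_ne_zero _)).1 hiso
      refine ⟨G g.1 0 0, ?_⟩
      rw [mulVec_e0]
      funext i
      fin_cases i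
      · simp [e0]
      · simpa [e0] using h10
      · simpa [e0] using h20
    obtain ⟨x0, hx0⟩ : ∃ x, x = G g.1 0 0 := ⟨_, rfl⟩
    obtain ⟨x1, hx1⟩ : ∃ x, x = G g.1 1 0 := ⟨_, rfl⟩
    obtain ⟨x2, hx2⟩ : ∃ x, x = G g.1 2 0 := ⟨_, rfl⟩
    have f0 := hfix 0
    have f1 := hfix 1
    have f2 := hfix 2
    rw [← hx0, ← hx1, ← hx2] at hiso
    rw [← hx0] at f0
    rw [← hx1] at f1 h10
    rw [← hx2] at f2
    have h10' : x1 ^ (5 ^ n) ≠ 0 := pow_ne_zero _ h10
    obtain ⟨u, hu, hGu⟩ := hex (x2 / x1) (x0 / x1) (by rw [div_pow, f2, f1])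
      (by rw [div_pow, f0, f1]) (by
        rw [div_pow, div_pow]
        field_simp
        linear_combination hiso)
    refine ⟨u, hu, ?_⟩
    rw [QuotientGroup.eq]
    refine ⟨x1, ?_⟩
    have h1 := hus u _ _ hGu
    have h2 : G g.1 *ᵥ e0 = x1 • (G (u * s : S).1 *ᵥ e0) := by
      rw [h1, mulVec_e0]
      funext i
      fin_cases i
      · simp only [Fin.zero_eta, Pi.smul_apply, smul_eq_mul, Matrix.cons_val_zero]
        rw [← hx0]
        field_simp
      · show G g.1 1 0 = x1 * (![x0 / x1, 1, x2 / x1] : Fin 3 → Om) 1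
        rw [← hx1]
        simp
      · simp only [Fin.reduceFinMk, Pi.smul_apply, smul_eq_mul, Matrix.cons_val]
        rw [← hx2]
        field_simp
    show G ((u * s : S).1⁻¹ * g.1) *ᵥ e0 = _
    rw [G_mul, ← Matrix.mulVec_mulVec, h2, Matrix.mulVec_smul, Matrix.mulVec_mulVec, G_inv_mul,
      Matrix.one_mulVec]
  -- the action
  have hact : ∀ g h : S, MulAction.toPermHom S (S ⧸ Bo S) g ((h : S) : S ⧸ Bo S) =
      ((g * h : S) : S ⧸ Bo S) := fun g h => rfl
  have hfixx : ∀ h : S, MulAction.toPermHom S (S ⧸ Bo S) h ((1 : S) : S ⧸ Bo S) =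
      ((1 : S) : S ⧸ Bo S) ↔ h ∈ Bo S := by
    intro h
    rw [hact, mul_one, eq_comm, QuotientGroup.eq, inv_one, one_mul]
  have hreg : ∀ y z : S ⧸ Bo S, y ≠ ((1 : S) : S ⧸ Bo S) → z ≠ ((1 : S) : S ⧸ Bo S) →
      ∃! u : S, u ∈ Un S ∧ MulAction.toPermHom S (S ⧸ Bo S) u y = z := by
    intro y z hy hz
    obtain ⟨u1, hu1, rfl⟩ := hbr y hy
    obtain ⟨u2, hu2, rfl⟩ := hbr z hz
    refine ⟨u2 * u1⁻¹, ⟨(Un S).mul_mem hu2 ((Un S).inv_mem hu1), ?_⟩, ?_⟩
    · rw [hact]
      congr 1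
      group
    · rintro u ⟨hu, hu'⟩
      rw [hact, ← mul_assoc] at hu'
      have := huniq _ ((Un S).mul_mem hu hu1) _ hu2 hu'
      rw [← this]
      group
  refine ⟨S ⧸ Bo S, MulAction.toPermHom S (S ⧸ Bo S), ((1 : S) : S ⧸ Bo S), Un S, ?_, ?_, ?_, ?_,
    ?_, ?_, hreg⟩
  · intro g
    constructor
    · intro hg
      obtain ⟨a, b, ha, hb, hab, hG⟩ := hform g hg
      exact ⟨a, b, ha, hb, hab, by rw [mt_of_G, hG]⟩
    · rintro ⟨a, b, -, -, -, hm⟩
      show G g.1 *ᵥ e0 = e0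
      rw [G_of_mt _ _ hm, NU_e0]
  · infer_instance
  · obtain ⟨T, hT, hT'⟩ := exists_T n hn
    have hb2 : ∀ b ∈ T, b ^ (5 ^ (2 * n)) = b := by
      intro b hb
      have h1 : b ^ (5 ^ n) = -b := by linear_combination hT' b hb
      have hodd : Odd (5 ^ n) := Odd.pow (by decide)
      rw [two_mul, pow_add, pow_mul, h1, hodd.neg_pow, h1, neg_neg]
    have hz : (0 : Om) ^ (5 ^ (2 * n)) = 0 := zero_pow (by positivity)
    have hz' : (0 : Om) ^ (5 ^ n) = 0 := zero_pow (by positivity)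
    choose! u hu hGu using fun (b : Om) (hb : b ∈ T) => hex 0 b hz (hb2 b hb)
      (by rw [hz', mul_zero, add_zero]; exact hT' b hb)
    let F : Option {b // b ∈ T} → S ⧸ Bo S := fun o =>
      match o with
      | none => ((1 : S) : S ⧸ Bo S)
      | some b => ((u b.1 * s : S) : S ⧸ Bo S)
    have hF : Function.Injective F := by
      intro o o' h
      match o, o', h with
      | none, none, _ => rfl
      | none, some b, h => exact absurd h.symm (hne _ (hu b.1 b.2))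
      | some b, none, h => exact absurd h (hne _ (hu b.1 b.2))
      | some b, some b', h =>
        have h1 := huniq _ (hu b.1 b.2) _ (hu b'.1 b'.2) h
        have h2 : NU n 0 b.1 = NU n 0 b'.1 := by
          rw [← hGu b.1 b.2, ← hGu b'.1 b'.2, h1]
        have h3 := congrFun (congrFun h2 0) 1
        have h4 : b.1 = b'.1 := by simpa [NU] using h3
        rw [Subtype.ext h4]
    have h1 := Nat.card_le_card_of_injective F hF
    rw [Finite.card_option, Nat.card_eq_fintype_card, Fintype.card_coe, hT] at h1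
    exact h1
  · intro a b c d hab hcd
    obtain ⟨a, rfl⟩ := QuotientGroup.mk_surjective a
    obtain ⟨b, rfl⟩ := QuotientGroup.mk_surjective b
    obtain ⟨c, rfl⟩ := QuotientGroup.mk_surjective c
    obtain ⟨d, rfl⟩ := QuotientGroup.mk_surjective d
    have h1 : ((a⁻¹ * b : S) : S ⧸ Bo S) ≠ ((1 : S) : S ⧸ Bo S) := by
      intro h
      apply hab
      rw [eq_comm, QuotientGroup.eq, inv_one, one_mul] at h
      rw [QuotientGroup.eq]
      exact h
    have h2 : ((c⁻¹ * d : S) : S ⧸ Bo S) ≠ ((1 : S) : S ⧸ Bo S) := by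
      intro h
      apply hcd
      rw [eq_comm, QuotientGroup.eq, inv_one, one_mul] at h
      rw [QuotientGroup.eq]
      exact h
    obtain ⟨u, ⟨hu, hu'⟩, -⟩ := hreg _ _ h1 h2
    refine ⟨c * u * a⁻¹, ?_, ?_⟩
    · rw [hact, QuotientGroup.eq]
      have : (c * u * a⁻¹ * a)⁻¹ * c = u⁻¹ := by group
      rw [this]
      exact Un_le ((Un S).inv_mem hu)
    · rw [hact] at hu' ⊢
      rw [QuotientGroup.eq] at hu' ⊢
      have : (c * u * a⁻¹ * b)⁻¹ * d = (u * (a⁻¹ * b))⁻¹ * (c⁻¹ * d) := by group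
      rw [this]
      exact hu'
  · intro u hu
    rw [hfixx]
    exact Un_le hu
  · intro u hu h hh
    exact Un_conj hu ((hfixx h).1 hh)

end Pool.Agent.N291.RK.ACT
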